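import Pool.Agent.W581.HQ.Stm

/-! Project HQ (helper581): part A0. -/

set_option autoImplicit false

namespace Pool.Agent.W177.HQ.A0

open Set Filter Topology
open Pool.Agent.W360.MQ (cab RankOneConvex)
open Pool.Agent.W581.HQ

/-- the norms of the two parts along the line -/
theorem cab_norm (t q : ℝ) :
    ‖(cab !![1, 0; q, t]).1‖ = √((1 + t) ^ 2 + q ^ 2) / 2 ∧
    ‖(cab !![1, 0; q, t]).2‖ = √((1 - t) ^ 2 + q ^ 2) / 2 := by
  constructor
  · have h1 : (cab !![1, 0; q, t]).1 = (((1 + t : ℝ) : ℂ) + ((q : ℝ) : ℂ) * Complex.I) / 2 := by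
      simp [cab]
    rw [h1, norm_div, Complex.norm_add_mul_I]
    norm_num
  · have h1 : (cab !![1, 0; q, t]).2 = (((1 - t : ℝ) : ℂ) + ((q : ℝ) : ℂ) * Complex.I) / 2 := by
      simp [cab]
    rw [h1, norm_div, Complex.norm_add_mul_I]
    norm_num

/-- the larger singular value along the line -/
noncomputable def sg (t q : ℝ) : ℝ := √((1 + t) ^ 2 + q ^ 2) / 2 + √((1 - t) ^ 2 + q ^ 2) / 2

theorem sg_gt {t q : ℝ} (hq : q ≠ 0) : 1 < sg t q := by
  have hq2 : 0 < q ^ 2 := by positivity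
  have h1 : 1 + t < √((1 + t) ^ 2 + q ^ 2) := Real.lt_sqrt_of_sq_lt (by linarith)
  have h2 : 1 - t < √((1 - t) ^ 2 + q ^ 2) := Real.lt_sqrt_of_sq_lt (by linarith)
  unfold sg
  linarith

theorem sg_zero {t : ℝ} (ht : t ∈ Icc (-1 : ℝ) 1) : sg t 0 = 1 := by
  unfold sg
  have h1 : √((1 + t) ^ 2 + 0 ^ 2) = 1 + t := by
    rw [show (1 + t) ^ 2 + (0 : ℝ) ^ 2 = (1 + t) ^ 2 by ring]
    exact Real.sqrt_sq (by linarith [ht.1])
  have h2 : √((1 - t) ^ 2 + 0 ^ 2) = 1 - t := by
    rw [show (1 - t) ^ 2 + (0 : ℝ) ^ 2 = (1 - t) ^ 2 by ring]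
    exact Real.sqrt_sq (by linarith [ht.2])
  rw [h1, h2]
  ring

theorem sg_cont (t : ℝ) : Continuous (sg t) := by
  unfold sg
  fun_prop

theorem W_line (h : S_REP) {p : ℝ} {W : M2 → ℝ} (hW : Hyp p W) (t : ℝ) {q : ℝ} (hs : 0 < sg t q) :
    W !![1, 0; q, t] = sg t q ^ p * phi W (t / sg t q ^ 2) := by
  rw [h p W hW, (cab_norm t q).1, (cab_norm t q).2]
  unfold wp
  have h1 : (√((1 + t) ^ 2 + q ^ 2) / 2 - √((1 - t) ^ 2 + q ^ 2) / 2) /
      (√((1 + t) ^ 2 + q ^ 2) / 2 + √((1 - t) ^ 2 + q ^ 2) / 2) = t / sg t q ^ 2 := by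
    change _ / sg t q = _
    rw [div_eq_div_iff hs.ne' (by positivity)]
    have h2 : (√((1 + t) ^ 2 + q ^ 2) / 2 - √((1 - t) ^ 2 + q ^ 2) / 2) * sg t q = t := by
      unfold sg
      have e1 : √((1 + t) ^ 2 + q ^ 2) ^ 2 = (1 + t) ^ 2 + q ^ 2 := Real.sq_sqrt (by positivity)
      have e2 : √((1 - t) ^ 2 + q ^ 2) ^ 2 = (1 - t) ^ 2 + q ^ 2 := Real.sq_sqrt (by positivity)
      linear_combination (e1 - e2) / 4
    rw [show sg t q ^ 2 = sg t q * sg t q from pow_two _, ← mul_assoc, h2]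
  rw [h1]
  rfl

theorem rank_line {q : ℝ} (hq : q ≠ 0) : (!![0, 0; q, 0] : M2).rank = 1 := by
  have h1 : (!![0, 0; q, 0] : M2) = Matrix.vecMulVec ![0, q] ![1, 0] := by
    ext i j
    fin_cases i <;> fin_cases j <;> simp [Matrix.vecMulVec]
  have h2 : (!![0, 0; q, 0] : M2).rank ≤ 1 := by
    rw [h1]
    exact Matrix.rank_vecMulVec_le _ _
  have h3 : (!![0, 0; q, 0] : M2).rank ≠ 0 := by
    intro h0
    rw [Matrix.rank, Submodule.finrank_eq_zero, LinearMap.range_eq_bot] at h0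
    have h4 := congrFun (LinearMap.congr_fun h0 ![1, 0]) 1
    simp [Matrix.mulVec, dotProduct] at h4
    exact hq h4
  omega

theorem main (h : S_REP) : S_A0 := by
  intro p W hW hφ t ht
  -- the function on the line
  have hmin : ∀ q : ℝ, q ≠ 0 → phi W t ≤ sg t q ^ p * phi W (t / sg t q ^ 2) := by
    intro q hq
    have hs := sg_gt (t := t) hq
    have e1 := W_line h hW t (q := q) (by linarith)
    have hsm : sg t (-q) = sg t q := by unfold sg; rw [neg_sq]
    have e2 := W_line h hW t (q := -q) (by rw [hsm]; linarith)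
    rw [hsm] at e2
    have h1 := hW.roc !![1, 0; -q, t] !![0, 0; 2 * q, 0] (rank_line (by
      simpa using hq)) (1 / 2) (by norm_num) (by norm_num)
    have h2 : (!![1, 0; -q, t] : M2) + !![0, 0; 2 * q, 0] = !![1, 0; q, t] := by
      ext i j
      fin_cases i <;> fin_cases j <;> simp
      ring
    have h3 : (1 - (1 / 2 : ℝ)) • (!![1, 0; -q, t] : M2) + (1 / 2 : ℝ) • (!![1, 0; q, t] : M2) =
        dg 1 t := by
      ext i j
      fin_cases i <;> fin_cases j <;> simp [dg] <;> ring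
    rw [h2, h3, e1, e2] at h1
    change phi W t ≤ _ at h1
    linarith
  -- the derivative
  set φ := phi W with hφd
  have hd : HasDerivAt φ (deriv φ t) t := (hφ.differentiable (by norm_num) t).hasDerivAt
  have hg : HasDerivAt (fun s : ℝ => s ^ p * φ (t / s ^ 2)) (p * φ t - 2 * t * deriv φ t) 1 := by
    have g1 : HasDerivAt (fun s : ℝ => s ^ p) (p * (1 : ℝ) ^ (p - 1)) 1 :=
      Real.hasDerivAt_rpow_const (Or.inl one_ne_zero)
    have g2 : HasDerivAt (fun s : ℝ => t / s ^ 2) (-2 * t) 1 := by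
      have g3 := (hasDerivAt_const (1 : ℝ) t).fun_div (hasDerivAt_pow 2 (1 : ℝ)) (by norm_num)
      refine g3.congr_deriv ?_
      norm_num
      ring
    have g4 : HasDerivAt (fun s : ℝ => φ (t / s ^ 2)) (deriv φ t * (-2 * t)) 1 := by
      have g5 : HasDerivAt φ (deriv φ t) (t / (1 : ℝ) ^ 2) := by
        rw [one_pow, div_one]
        exact hd
      exact g5.comp (1 : ℝ) g2
    refine (g1.fun_mul g4).congr_deriv ?_
    simp only [Real.one_rpow, one_pow, div_one]
    ring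
  have hslope := hg.tendsto_slope
  have hsg : Tendsto (sg t) (𝓝[≠] 0) (𝓝[≠] 1) := by
    refine tendsto_nhdsWithin_iff.mpr ⟨?_, ?_⟩
    · have := (sg_cont t).tendsto 0
      rw [sg_zero ht] at this
      exact this.mono_left nhdsWithin_le_nhds
    · filter_upwards [self_mem_nhdsWithin] with q hq
      exact (sg_gt hq).ne'
  have hcomp := hslope.comp hsg
  have hnn : 0 ≤ p * φ t - 2 * t * deriv φ t := by
    refine ge_of_tendsto hcomp ?_
    filter_upwards [self_mem_nhdsWithin] with q hq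
    have hs := sg_gt (t := t) hq
    have h1 := hmin q hq
    simp only [Function.comp_apply, slope_def_field, Real.one_rpow, one_pow, div_one, one_mul]
    exact div_nonneg (by linarith) (by linarith)
  linarith

end Pool.Agent.W177.HQ.A0
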